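import Mathlib

/-!
# The threshold for large subsets avoiding bad triangles in Hilbert space is one, not attained

For `δ < 1` the property `P(δ)` fails: take the points `(R ζ^{x_i} / √N)_i` of `ℂ^N`, where `x`
runs over `(ℤ/q)^N` and `ζ = e^{2πi/q}`.  A set of density `λ` in `(ℤ/q)^N` has, within Hamming
distance `O(√N)`, points near three quarters of the cube (variance of a Lipschitz function), so it
has points very near `x`, `x + 1`, `x + 2` for some `x`, and these three points form a nearly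
degenerate triangle.  For `δ = 1` a bad triangle consists of two points and their midpoint, and
colouring by `⌊‖x‖²⌋ mod 4` avoids it.
-/

namespace Pool.Agent.Results.MP_8cfbc5_co.Threshold

open Finset

/-- The real Hilbert space `ℓ²`. -/
abbrev H := lp (fun _ : ℕ => ℝ) 2

/-- The distance of two points of `ℓ²`. -/
noncomputable def d (a b : H) : ℝ := ‖a - b‖

/-- The three points form a bad triangle: two of the distances are at most one and the remaining
one is at least `1 + δ`. -/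
def Bad (δ : ℝ) (a b c : H) : Prop :=
  (d a b ≤ 1 ∧ d b c ≤ 1 ∧ 1 + δ ≤ d a c) ∨
  (d b c ≤ 1 ∧ d a c ≤ 1 ∧ 1 + δ ≤ d a b) ∨
  (d a c ≤ 1 ∧ d a b ≤ 1 ∧ 1 + δ ≤ d b c)

/-- Property `P(δ)`. -/
def P (δ : ℝ) : Prop :=
  ∃ lam : ℝ, 0 < lam ∧ ∀ n : ℕ, 1 ≤ n → ∀ x : Fin n → H,
    ∃ I : Finset (Fin n), lam * n ≤ (I.card : ℝ) ∧
      ∀ i ∈ I, ∀ j ∈ I, ∀ k ∈ I, i ≠ j → j ≠ k → i ≠ k → ¬ Bad δ (x i) (x j) (x k)

/-! ### Variance of a Lipschitz function on a product space -/

section Variance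

variable {α : Type} [Fintype α] [Nonempty α] [DecidableEq α]

omit [Fintype α] [Nonempty α] in
theorem hd_cons {N : ℕ} (a b : α) (x y : Fin N → α) :
    hammingDist (Fin.cons a x : Fin (N+1) → α) (Fin.cons b y : Fin (N+1) → α)
      = (if a ≠ b then 1 else 0) + hammingDist x y := by
  simp only [hammingDist, Finset.card_filter, Fin.sum_univ_succ, Fin.cons_zero, Fin.cons_succ]

omit [Nonempty α] [DecidableEq α] in
theorem sum_cons {N : ℕ} (F : (Fin (N+1) → α) → ℝ) :
    ∑ x, F x = ∑ a : α, ∑ x : Fin N → α, F (Fin.cons a x : Fin (N+1) → α) := by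
  rw [← Fintype.sum_prod_type' (f := fun (a : α) (x : Fin N → α) =>
    F (Fin.cons a x : Fin (N+1) → α))]
  exact (Fintype.sum_equiv (Fin.consEquiv (fun _ => α)) _ _ (fun _ => rfl)).symm

omit [Nonempty α] [DecidableEq α] in
theorem card_cons (N : ℕ) : (Fintype.card (Fin (N+1) → α) : ℝ)
    = (Fintype.card α : ℝ) * (Fintype.card (Fin N → α) : ℝ) := by
  simp [pow_succ, mul_comm]

theorem sum_sq_split {ι : Type} [Fintype ι] (g : ι → ℝ) (K M : ℝ) (hK : K = Fintype.card ι)
    (hK0 : 0 < K) :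
    ∑ x, (g x - M)^2 = ∑ x, (g x - (∑ y, g y)/K)^2 + K * ((∑ y, g y)/K - M)^2 := by
  have h1 : ∀ x, (g x - M)^2 = (g x - (∑ y, g y)/K)^2
      + 2 * ((∑ y, g y)/K - M) * (g x - (∑ y, g y)/K) + ((∑ y, g y)/K - M)^2 := by
    intro x
    ring
  rw [Finset.sum_congr rfl (fun x _ => h1 x), Finset.sum_add_distrib, Finset.sum_add_distrib,
    ← Finset.mul_sum, Finset.sum_sub_distrib]
  simp only [Finset.sum_const, Finset.card_univ, nsmul_eq_mul, ← hK]
  have : K * ((∑ y, g y)/K) = ∑ y, g y := by field_simp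
  rw [this]
  ring

theorem var_bound : ∀ (N : ℕ) (f : (Fin N → α) → ℝ),
    (∀ x y, |f x - f y| ≤ (hammingDist x y : ℝ)) →
    ∑ x, (f x - (∑ y, f y) / Fintype.card (Fin N → α)) ^ 2
      ≤ N * Fintype.card (Fin N → α) := by
  intro N
  induction N with
  | zero =>
    intro f _
    simp
  | succ N ih =>
    intro f hf
    set K : ℝ := ((Fintype.card (Fin N → α) : ℕ) : ℝ) with hK
    set c : ℝ := ((Fintype.card α : ℕ) : ℝ) with hc
    have hK0 : 0 < K := by
      rw [hK]
      exact_mod_cast Fintype.card_pos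
    have hc0 : 0 < c := by
      rw [hc]
      exact_mod_cast Fintype.card_pos
    rw [card_cons, sum_cons, ← hK, ← hc]
    set S : α → ℝ := fun a => ∑ x : Fin N → α, f (Fin.cons a x : Fin (N+1) → α) with hS
    have hsum : ∑ y, f y = ∑ a, S a := sum_cons f
    rw [hsum]
    set M : ℝ := (∑ a, S a) / (c * K) with hM
    have hm : ∀ a b, |S a / K - S b / K| ≤ 1 := by
      intro a b
      rw [← sub_div, abs_div, abs_of_pos hK0, div_le_one hK0, hS]
      simp only
      rw [← Finset.sum_sub_distrib]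
      calc |∑ x : Fin N → α, (f (Fin.cons a x : Fin (N+1) → α) - f (Fin.cons b x : Fin (N+1) → α))|
          ≤ ∑ x : Fin N → α,
              |f (Fin.cons a x : Fin (N+1) → α) - f (Fin.cons b x : Fin (N+1) → α)| :=
            Finset.abs_sum_le_sum_abs _ _
        _ ≤ ∑ x : Fin N → α, (1 : ℝ) := by
            apply Finset.sum_le_sum
            intro x _
            refine (hf _ _).trans ?_
            rw [hd_cons, hammingDist_self]
            split_ifs <;> simp
        _ = K := by simp [hK]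
    have hmM : ∀ a, (S a / K - M)^2 ≤ 1 := by
      intro a
      have h1 : S a / K - M = (∑ b, (S a / K - S b / K)) / c := by
        rw [Finset.sum_sub_distrib, Finset.sum_const, Finset.card_univ, nsmul_eq_mul, ← hc,
          ← Finset.sum_div, hM]
        field_simp
      have h2 : |S a / K - M| ≤ 1 := by
        rw [h1, abs_div, abs_of_pos hc0, div_le_one hc0]
        calc |∑ b, (S a / K - S b / K)| ≤ ∑ b, |S a / K - S b / K| :=
              Finset.abs_sum_le_sum_abs _ _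
          _ ≤ ∑ b : α, (1 : ℝ) := Finset.sum_le_sum (fun b _ => hm a b)
          _ = c := by simp [hc]
      rw [← sq_abs]
      nlinarith [abs_nonneg (S a / K - M)]
    have hstep : ∀ a : α, ∑ x : Fin N → α, (f (Fin.cons a x : Fin (N+1) → α) - M)^2
        ≤ N * K + K := by
      intro a
      rw [sum_sq_split (fun x : Fin N → α => f (Fin.cons a x : Fin (N+1) → α)) K M hK hK0]
      have h1 := ih (fun x : Fin N → α => f (Fin.cons a x : Fin (N+1) → α)) (by
        intro x y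
        refine (hf _ _).trans ?_
        rw [hd_cons]
        simp)
      have h2 := mul_le_mul_of_nonneg_left (hmM a) hK0.le
      rw [mul_one] at h2
      exact add_le_add h1 h2
    calc ∑ a : α, ∑ x : Fin N → α, (f (Fin.cons a x : Fin (N+1) → α) - M)^2
        ≤ ∑ a : α, (N * K + K) := Finset.sum_le_sum (fun a _ => hstep a)
      _ = c * (N * K + K) := by
          rw [Finset.sum_const, Finset.card_univ, nsmul_eq_mul]
      _ = ((N + 1 : ℕ) : ℝ) * (c * K) := by
          push_cast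
          ring

/-- Blow-up: a set of density `lam` has most of the space within Hamming distance `O(√N)`. -/
theorem blowup {N : ℕ} (hN : 1 ≤ N) (A : Finset (Fin N → α)) (lam : ℝ) (hl : 0 < lam)
    (hA : lam * Fintype.card (Fin N → α) ≤ A.card) :
    ((univ.filter (fun x : Fin N → α =>
      ¬ ∃ a ∈ A, (hammingDist x a : ℝ) ≤ (2 + √(1/lam)) * √N)).card : ℝ)
      ≤ Fintype.card (Fin N → α) / 4 := by
  set K : ℝ := ((Fintype.card (Fin N → α) : ℕ) : ℝ) with hK
  have hK0 : 0 < K := by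
    rw [hK]
    exact_mod_cast Fintype.card_pos
  have hN0 : (0 : ℝ) < N := by exact_mod_cast hN
  have hne : A.Nonempty := by
    rw [← Finset.card_pos]
    have : (0 : ℝ) < A.card := lt_of_lt_of_le (mul_pos hl hK0) hA
    exact_mod_cast this
  set f : (Fin N → α) → ℝ := fun x => A.inf' hne (fun a => (hammingDist x a : ℝ)) with hf
  have hflow : ∀ x y, f x ≤ hammingDist x y + f y := by
    intro x y
    obtain ⟨a, ha, hae⟩ := A.exists_mem_eq_inf' hne (fun a => (hammingDist y a : ℝ))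
    have h1 : f x ≤ hammingDist x a := Finset.inf'_le _ ha
    have h2 : (hammingDist x a : ℝ) ≤ hammingDist x y + hammingDist y a := by
      exact_mod_cast hammingDist_triangle x y a
    have h3 : f y = hammingDist y a := hae
    linarith
  have hlip : ∀ x y, |f x - f y| ≤ (hammingDist x y : ℝ) := by
    intro x y
    rw [abs_le]
    have h1 := hflow x y
    have h2 := hflow y x
    rw [hammingDist_comm y x] at h2
    constructor <;> linarith
  have hfA : ∀ x ∈ A, f x = 0 := by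
    intro x hx
    apply le_antisymm
    · have : f x ≤ hammingDist x x := Finset.inf'_le _ hx
      simpa using this
    · apply Finset.le_inf'
      intro a _
      positivity
  have hvar := var_bound N f hlip
  rw [← hK] at hvar
  set M : ℝ := (∑ y, f y) / K with hM
  have hAM : (A.card : ℝ) * M^2 ≤ N * K := by
    calc (A.card : ℝ) * M^2 = ∑ x ∈ A, (f x - M)^2 := by
          rw [Finset.sum_congr rfl (fun x hx => by rw [hfA x hx, zero_sub, neg_sq]),
            Finset.sum_const, nsmul_eq_mul]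
      _ ≤ ∑ x, (f x - M)^2 :=
          Finset.sum_le_sum_of_subset_of_nonneg (Finset.subset_univ _) (fun _ _ _ => sq_nonneg _)
      _ ≤ N * K := hvar
  have hM2 : M^2 ≤ (1/lam) * N := by
    have h1 : lam * K * M^2 ≤ N * K := le_trans (mul_le_mul_of_nonneg_right hA (sq_nonneg _)) hAM
    have h2 : lam * M^2 ≤ N := by
      have : (lam * M^2) * K ≤ N * K := by linarith
      exact le_of_mul_le_mul_right this hK0
    rw [one_div, inv_mul_eq_div, le_div_iff₀ hl]
    linarith
  have hMle : M ≤ √(1/lam) * √N := by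
    rw [← Real.sqrt_mul (by positivity)]
    exact Real.le_sqrt_of_sq_le hM2
  set B := univ.filter (fun x : Fin N → α =>
      ¬ ∃ a ∈ A, (hammingDist x a : ℝ) ≤ (2 + √(1/lam)) * √N) with hB
  have hBf : ∀ x ∈ B, 4 * (N : ℝ) ≤ (f x - M)^2 := by
    intro x hx
    rw [hB, Finset.mem_filter] at hx
    have h1 : M + 2 * √N ≤ f x := by
      apply Finset.le_inf'
      intro a ha
      by_contra hcon
      push Not at hcon
      apply hx.2
      refine ⟨a, ha, ?_⟩
      have : (2 + √(1/lam)) * √N = √(1/lam) * √N + 2 * √N := by ring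
      rw [this]
      linarith
    have h2 : 0 ≤ 2 * √(N : ℝ) := by positivity
    have h3 : (2 * √(N : ℝ))^2 ≤ (f x - M)^2 := pow_le_pow_left₀ h2 (by linarith) 2
    rw [mul_pow, Real.sq_sqrt hN0.le] at h3
    linarith
  have hBcard : (B.card : ℝ) * (4 * N) ≤ N * K := by
    calc (B.card : ℝ) * (4 * N) = ∑ x ∈ B, (4 * (N : ℝ)) := by
          rw [Finset.sum_const, nsmul_eq_mul]
      _ ≤ ∑ x ∈ B, (f x - M)^2 := Finset.sum_le_sum hBf
      _ ≤ ∑ x, (f x - M)^2 :=
          Finset.sum_le_sum_of_subset_of_nonneg (Finset.subset_univ _) (fun _ _ _ => sq_nonneg _)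
      _ ≤ N * K := hvar
  have h5 : (B.card * 4) * (N : ℝ) ≤ K * N := by linarith
  have h6 := le_of_mul_le_mul_right h5 hN0
  linarith

end Variance

/-! ### The point sets -/

/-- Every finite-dimensional real inner product space embeds isometrically in `ℓ²`. -/
theorem exists_embed (E : Type) [NormedAddCommGroup E] [InnerProductSpace ℝ E]
    [FiniteDimensional ℝ E] : Nonempty (E →ₗᵢ[ℝ] H) := by
  let b := stdOrthonormalBasis ℝ E
  let e : HilbertBasis ℕ ℝ H := default
  let v : Fin (Module.finrank ℝ E) → H := fun i => e i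
  have hv : Orthonormal ℝ v := e.orthonormal.comp (fun i : Fin _ => (i : ℕ)) Fin.val_injective
  refine ⟨(b.toBasis.constr ℝ v).isometryOfOrthonormal (v := b.toBasis) ?_ ?_⟩
  · simp
  · have : (b.toBasis.constr ℝ v) ∘ b.toBasis = v := by
      funext i
      simp
    rw [this]
    exact hv

theorem exists_root (δ : ℝ) (hδ : δ < 1) : ∃ q : ℕ, 1 < q ∧
    1 + δ < ‖Complex.exp (2 * Real.pi * Complex.I / q) + 1‖ := by
  have h1 : Filter.Tendsto (fun q : ℕ => ‖Complex.exp (2 * Real.pi * Complex.I / q) + 1‖)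
      Filter.atTop (nhds 2) := by
    have h2 : Filter.Tendsto (fun q : ℕ => (2 * Real.pi * Complex.I / q : ℂ))
        Filter.atTop (nhds 0) := tendsto_const_div_atTop_nhds_zero_nat _
    have h3 := (Complex.continuous_exp.tendsto 0).comp h2
    have h4 := (h3.add_const 1).norm
    have h5 : ‖Complex.exp 0 + 1‖ = (2 : ℝ) := by
      rw [Complex.exp_zero]
      norm_num
    rw [h5] at h4
    exact h4
  have h2 := (h1.eventually (lt_mem_nhds (show 1 + δ < (2 : ℝ) by linarith))).and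
    (Filter.eventually_gt_atTop 1)
  obtain ⟨q, hq1, hq2⟩ := h2.exists
  exact ⟨q, hq2, hq1⟩

/-- The map of `(ℤ/q)^N` to `ℂ^N`. -/
noncomputable def emb {q : ℕ} [NeZero q] (R : ℝ) (N : ℕ) (x : Fin N → ZMod q) :
    PiLp 2 (fun _ : Fin N => ℂ) :=
  WithLp.toLp 2 (fun i => ((R / √N : ℝ) : ℂ) * ZMod.stdAddChar (x i))

theorem norm_emb_sub {q : ℕ} [NeZero q] (R : ℝ) (N : ℕ) (x y : Fin N → ZMod q) :
    ‖emb R N x - emb R N y‖ ^ 2
      = ∑ i, (R / √N)^2 * ‖ZMod.stdAddChar (x i) - ZMod.stdAddChar (y i)‖ ^ 2 := by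
  rw [PiLp.norm_sq_eq_of_L2]
  apply Finset.sum_congr rfl
  intro i _
  have : (emb R N x - emb R N y) i
      = ((R / √N : ℝ) : ℂ) * (ZMod.stdAddChar (x i) - ZMod.stdAddChar (y i)) := by
    simp only [emb, PiLp.sub_apply]
    ring
  rw [this, norm_mul, mul_pow, Complex.norm_real, Real.norm_eq_abs, sq_abs]

theorem norm_char {q : ℕ} [NeZero q] (a : ZMod q) : ‖(ZMod.stdAddChar a : ℂ)‖ = 1 :=
  AddChar.norm_apply _ _

theorem emb_shift {q : ℕ} [NeZero q] (R : ℝ) (hR : 0 ≤ R) {N : ℕ} (hN : 1 ≤ N)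
    (x : Fin N → ZMod q) (s : ZMod q) :
    ‖emb R N (fun i => x i + s) - emb R N x‖ = R * ‖(ZMod.stdAddChar s : ℂ) - 1‖ := by
  have hN0 : (0 : ℝ) < N := by exact_mod_cast hN
  have h1 : ‖emb R N (fun i => x i + s) - emb R N x‖^2
      = (R * ‖(ZMod.stdAddChar s : ℂ) - 1‖)^2 := by
    rw [norm_emb_sub]
    have h2 : ∀ i : Fin N, (R / √N)^2 * ‖(ZMod.stdAddChar (x i + s) : ℂ)
        - ZMod.stdAddChar (x i)‖ ^ 2 = (R / √N)^2 * ‖(ZMod.stdAddChar s : ℂ) - 1‖^2 := by
      intro i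
      have h3 : (ZMod.stdAddChar (x i + s) : ℂ) - ZMod.stdAddChar (x i)
          = ZMod.stdAddChar (x i) * ((ZMod.stdAddChar s : ℂ) - 1) := by
        rw [AddChar.map_add_eq_mul]
        ring
      rw [h3, norm_mul, norm_char, one_mul]
    rw [Finset.sum_congr rfl (fun i _ => h2 i), Finset.sum_const, Finset.card_univ,
      Fintype.card_fin, nsmul_eq_mul, div_pow, Real.sq_sqrt hN0.le]
    field_simp
  exact (pow_left_inj₀ (norm_nonneg _) (by positivity) two_ne_zero).1 h1

theorem emb_near {q : ℕ} [NeZero q] (R : ℝ) {N : ℕ} (hN : 1 ≤ N)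
    (x y : Fin N → ZMod q) :
    ‖emb R N x - emb R N y‖ ^ 2 ≤ 4 * R^2 * (hammingDist x y / N) := by
  have hN0 : (0 : ℝ) < N := by exact_mod_cast hN
  rw [norm_emb_sub]
  have h2 : ∀ i : Fin N, (R / √N)^2 * ‖(ZMod.stdAddChar (x i) : ℂ)
      - ZMod.stdAddChar (y i)‖ ^ 2 ≤ (4 * R^2 / N) * (if x i ≠ y i then 1 else 0) := by
    intro i
    split_ifs with h
    · have h3 : ‖(ZMod.stdAddChar (x i) : ℂ) - ZMod.stdAddChar (y i)‖ ≤ 2 := by
        calc ‖(ZMod.stdAddChar (x i) : ℂ) - ZMod.stdAddChar (y i)‖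
            ≤ ‖(ZMod.stdAddChar (x i) : ℂ)‖ + ‖(ZMod.stdAddChar (y i) : ℂ)‖ := norm_sub_le _ _
          _ = 2 := by rw [norm_char, norm_char]; norm_num
      have h4 : ‖(ZMod.stdAddChar (x i) : ℂ) - ZMod.stdAddChar (y i)‖^2 ≤ 4 := by
        nlinarith [norm_nonneg ((ZMod.stdAddChar (x i) : ℂ) - ZMod.stdAddChar (y i))]
      rw [div_pow, Real.sq_sqrt hN0.le, mul_one]
      calc R^2 / N * ‖(ZMod.stdAddChar (x i) : ℂ) - ZMod.stdAddChar (y i)‖^2
          ≤ R^2 / N * 4 := by gcongr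
        _ = 4 * R^2 / N := by ring
    · have h3 : x i = y i := by
        by_contra h5
        exact h h5
      rw [h3, sub_self, norm_zero]
      simp
  calc ∑ i, (R / √N)^2 * ‖(ZMod.stdAddChar (x i) : ℂ) - ZMod.stdAddChar (y i)‖ ^ 2
      ≤ ∑ i : Fin N, (4 * R^2 / N) * (if x i ≠ y i then (1 : ℝ) else 0) :=
        Finset.sum_le_sum (fun i _ => h2 i)
    _ = (4 * R^2 / N) * (hammingDist x y : ℝ) := by
        rw [← Finset.mul_sum, hammingDist, Finset.card_filter]
        push_cast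
        rfl
    _ = 4 * R^2 * (hammingDist x y / N) := by ring

/-- Three translates of the good set meet. -/
theorem exists_common {q : ℕ} [NeZero q] {N : ℕ} (B : Finset (Fin N → ZMod q))
    (hB : (B.card : ℝ) ≤ Fintype.card (Fin N → ZMod q) / 4) (s t : Fin N → ZMod q) :
    ∃ x, x ∉ B ∧ x + s ∉ B ∧ x + t ∉ B := by
  by_contra hcon
  push Not at hcon
  set K : ℝ := ((Fintype.card (Fin N → ZMod q) : ℕ) : ℝ) with hK
  have hK0 : 0 < K := by
    rw [hK]
    exact_mod_cast Fintype.card_pos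
  have hcov : (univ : Finset (Fin N → ZMod q))
      ⊆ B ∪ (B.image (fun x => x - s) ∪ B.image (fun x => x - t)) := by
    intro x _
    by_cases h1 : x ∈ B
    · exact Finset.mem_union_left _ h1
    · apply Finset.mem_union_right
      by_cases h2 : x + s ∈ B
      · exact Finset.mem_union_left _ (Finset.mem_image.2 ⟨x + s, h2, by simp⟩)
      · exact Finset.mem_union_right _ (Finset.mem_image.2 ⟨x + t, hcon x h1 h2, by simp⟩)
  have h1 := Finset.card_le_card hcov
  have h2 := Finset.card_union_le B (B.image (fun x => x - s) ∪ B.image (fun x => x - t))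
  have h3 := Finset.card_union_le (B.image (fun x => x - s)) (B.image (fun x => x - t))
  have h4 : (B.image (fun x => x - s)).card ≤ B.card := Finset.card_image_le
  have h5 : (B.image (fun x => x - t)).card ≤ B.card := Finset.card_image_le
  rw [Finset.card_univ] at h1
  have h6 : Fintype.card (Fin N → ZMod q) ≤ 3 * B.card := by omega
  have h7 : K ≤ 3 * (B.card : ℝ) := by
    rw [hK]
    exact_mod_cast h6
  linarith

theorem not_P (δ : ℝ) (h0 : 0 < δ) (h1 : δ < 1) : ¬ P δ := by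
  rintro ⟨lam, hl, hP⟩
  obtain ⟨q, hq, hqz⟩ := exists_root δ h1
  have hqne : NeZero q := ⟨by omega⟩
  have hq1 : Fact (1 < q) := ⟨hq⟩
  set ζ : ℂ := ZMod.stdAddChar (1 : ZMod q) with hζ
  have hζe : ζ = Complex.exp (2 * Real.pi * Complex.I / q) := by
    have h := ZMod.stdAddChar_coe (N := q) 1
    rw [Int.cast_one] at h
    rw [hζ, h]
    congr 1
    push_cast
    ring
  rw [← hζe] at hqz
  set κ : ℝ := ‖ζ + 1‖ with hκ
  have hζ1 : ζ ≠ 1 := by
    intro h
    have h2 : (ZMod.stdAddChar (1 : ZMod q) : ℂ) = ZMod.stdAddChar (0 : ZMod q) := by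
      rw [AddChar.map_zero_eq_one]
      exact h
    have h3 := ZMod.injective_stdAddChar h2
    exact one_ne_zero h3
  set w : ℝ := ‖ζ - 1‖ with hw
  have hw0 : 0 < w := by
    rw [hw, norm_pos_iff, sub_ne_zero]
    exact hζ1
  have hκ0 : 0 < κ := by linarith
  set ρ : ℝ := ((1 + δ) / κ + 1) / 2 with hρ
  have hρ1 : (1 + δ) / κ < 1 := by
    rw [div_lt_one hκ0]
    exact hqz
  have hρ2 : ρ < 1 := by linarith
  have hρ3 : (1 + δ) / κ < ρ := by linarith
  have hρ4 : 1 + δ < ρ * κ := by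
    rwa [div_lt_iff₀ hκ0] at hρ3
  have hρ0 : 0 < ρ := lt_trans (by positivity) hρ3
  set R : ℝ := ρ / w with hR
  have hR0 : 0 < R := by positivity
  have hRw : R * w = ρ := by
    rw [hR]
    field_simp
  set ε : ℝ := min ((1 - ρ) / 2) ((ρ * κ - (1 + δ)) / 2) with hε
  have hε0 : 0 < ε := by
    rw [hε, lt_min_iff]
    constructor <;> linarith
  have hε1 : ε ≤ (1 - ρ) / 2 := min_le_left _ _
  have hε2 : ε ≤ (ρ * κ - (1 + δ)) / 2 := min_le_right _ _
  set C : ℝ := 2 + √(1/lam) with hC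
  have hC0 : 0 < C := by positivity
  obtain ⟨N, hNbig⟩ := exists_nat_gt ((4 * R^2 * C / ε^2)^2)
  have hNpos : (0 : ℝ) < N := lt_of_le_of_lt (by positivity) hNbig
  have hN1 : 1 ≤ N := by
    have : 0 < N := by exact_mod_cast hNpos
    omega
  have hsqrtN : 4 * R^2 * C / ε^2 ≤ √N := Real.le_sqrt_of_sq_le hNbig.le
  have hsN0 : 0 < √(N : ℝ) := Real.sqrt_pos.2 hNpos
  have hfin : 4 * R^2 * (C * √N / N) ≤ ε^2 := by
    have e1 : C * √(N : ℝ) / N = C / √N := by
      rw [div_eq_div_iff hNpos.ne' hsN0.ne', mul_assoc, Real.mul_self_sqrt hNpos.le]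
    rw [e1]
    rw [div_le_iff₀ (by positivity)] at hsqrtN
    rw [mul_div_assoc', div_le_iff₀ hsN0]
    linarith
  obtain ⟨L⟩ := exists_embed (PiLp 2 (fun _ : Fin N => ℂ))
  set X := Fin N → ZMod q with hX
  set n := Fintype.card X with hn
  have hn1 : 1 ≤ n := Fintype.card_pos
  let e : Fin n ≃ X := (Fintype.equivFin X).symm
  obtain ⟨I, hI, hbad⟩ := hP n hn1 (fun i => L (emb R N (e i)))
  set A : Finset X := I.map e.toEmbedding with hA
  have hAcard : A.card = I.card := Finset.card_map _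
  have hAI : lam * Fintype.card (Fin N → ZMod q) ≤ A.card := by
    rw [hAcard]
    exact hI
  have hblow := blowup hN1 A lam hl hAI
  obtain ⟨x, hx0, hx1, hx2⟩ := exists_common _ hblow (fun _ => 1) (fun _ => 1 + 1)
  simp only [Finset.mem_filter, Finset.mem_univ, true_and, not_not] at hx0 hx1 hx2
  obtain ⟨y0, hy0, hd0⟩ := hx0
  obtain ⟨y1, hy1, hd1⟩ := hx1
  obtain ⟨y2, hy2, hd2⟩ := hx2
  have hnear : ∀ u y : X, (hammingDist u y : ℝ) ≤ C * √N → ‖emb R N u - emb R N y‖ ≤ ε := by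
    intro u y hd
    have e1 := emb_near R hN1 u y
    have e2 : 4 * R^2 * (hammingDist u y / N) ≤ 4 * R^2 * (C * √N / N) := by
      gcongr
    exact (pow_le_pow_iff_left₀ (norm_nonneg _) hε0.le two_ne_zero).1 (e1.trans (e2.trans hfin))
  have n0 := hnear _ _ hd0
  have n1 := hnear _ _ hd1
  have n2 := hnear _ _ hd2
  have d01 : ‖emb R N (x + fun _ => (1 : ZMod q)) - emb R N x‖ = ρ := by
    have := emb_shift R hR0.le hN1 x 1
    rw [← hRw]
    exact this
  have d12 : ‖emb R N (x + fun _ => (1 + 1 : ZMod q))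
      - emb R N (x + fun _ => (1 : ZMod q))‖ = ρ := by
    have := emb_shift R hR0.le hN1 (x + fun _ => (1 : ZMod q)) 1
    rw [← hRw]
    have e1 : ∀ z : Fin N → ZMod q, z = (fun _ => (1 : ZMod q)) →
        (fun i => (x + z) i + 1) = x + fun _ => (1 + 1 : ZMod q) := by
      rintro z rfl
      funext i
      simp only [Pi.add_apply]
      ring
    rw [e1 _ rfl] at this
    exact this
  have d02 : ‖emb R N (x + fun _ => (1 + 1 : ZMod q)) - emb R N x‖ = ρ * κ := by
    have := emb_shift R hR0.le hN1 x (1 + 1)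
    have e2 : (ZMod.stdAddChar (1 + 1 : ZMod q) : ℂ) - 1 = (ζ - 1) * (ζ + 1) := by
      rw [AddChar.map_add_eq_mul]
      ring
    rw [e2, norm_mul, ← mul_assoc, ← hw, ← hκ, hRw] at this
    exact this
  have key : ∀ u v : X, ∀ y z : X, ‖emb R N u - emb R N y‖ ≤ ε → ‖emb R N v - emb R N z‖ ≤ ε →
      |‖L (emb R N y) - L (emb R N z)‖ - ‖emb R N v - emb R N u‖| ≤ 2 * ε := by
    intro u v y z hu hv
    rw [← map_sub, L.norm_map, norm_sub_rev (emb R N v) (emb R N u)]
    have e1 := abs_norm_sub_norm_le (emb R N y - emb R N z) (emb R N u - emb R N v)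
    refine e1.trans ?_
    have e2 : emb R N y - emb R N z - (emb R N u - emb R N v)
        = (emb R N v - emb R N z) - (emb R N u - emb R N y) := by abel
    rw [e2]
    calc ‖(emb R N v - emb R N z) - (emb R N u - emb R N y)‖
        ≤ ‖emb R N v - emb R N z‖ + ‖emb R N u - emb R N y‖ := norm_sub_le _ _
      _ ≤ 2 * ε := by linarith
  have k01 := key _ _ y0 y1 n0 n1
  have k12 := key _ _ y1 y2 n1 n2
  have k02 := key _ _ y0 y2 n0 n2
  rw [d01, abs_le] at k01
  rw [d12, abs_le] at k12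
  rw [d02, abs_le] at k02
  rw [hA, Finset.mem_map] at hy0 hy1 hy2
  obtain ⟨i, hi, hie⟩ := hy0
  obtain ⟨j, hj, hje⟩ := hy1
  obtain ⟨k, hk, hke⟩ := hy2
  have hie' : e i = y0 := hie
  have hje' : e j = y1 := hje
  have hke' : e k = y2 := hke
  have b01 : ‖L (emb R N (e i)) - L (emb R N (e j))‖ ≤ 1 := by
    rw [hie', hje']
    linarith [k01.2]
  have b12 : ‖L (emb R N (e j)) - L (emb R N (e k))‖ ≤ 1 := by
    rw [hje', hke']
    linarith [k12.2]
  have b02 : 1 + δ ≤ ‖L (emb R N (e i)) - L (emb R N (e k))‖ := by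
    rw [hie', hke']
    linarith [k02.1]
  refine hbad i hi j hj k hk ?_ ?_ ?_ (Or.inl ⟨b01, b12, b02⟩)
  · rintro rfl
    linarith
  · rintro rfl
    linarith
  · rintro rfl
    rw [sub_self, norm_zero] at b02
    linarith

/-- A bad triangle for `δ = 1` is not monochromatic for the colour `⌊‖x‖²⌋ mod 4`. -/
theorem midpoint_color (a b c : H) (hab : ‖a - b‖ ≤ 1) (hbc : ‖b - c‖ ≤ 1)
    (hac : 1 + 1 ≤ ‖a - c‖) (h1 : (⌊‖a‖^2⌋ : ZMod 4) = ⌊‖b‖^2⌋)
    (h2 : (⌊‖b‖^2⌋ : ZMod 4) = ⌊‖c‖^2⌋) : False := by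
  have hpar := parallelogram_law_with_norm ℝ (a - b) (b - c)
  have hsum : a - b + (b - c) = a - c := sub_add_sub_cancel a b c
  rw [hsum] at hpar
  have h3 : ‖a - b - (b - c)‖ = 0 := by
    have e1 := norm_nonneg (a - b - (b - c))
    have e2 := norm_nonneg (a - b)
    have e3 := norm_nonneg (b - c)
    nlinarith
  have h4 : a - b = b - c := by
    rw [norm_eq_zero, sub_eq_zero] at h3
    exact h3
  have h5 : ‖a - b‖ = 1 := by
    have e1 : a - c = (2 : ℝ) • (a - b) := by
      rw [two_smul, ← hsum]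
      nth_rewrite 3 [h4]
      rfl
    rw [e1, norm_smul, Real.norm_eq_abs, abs_of_pos (by norm_num)] at hac
    linarith
  have hpar2 := parallelogram_law_with_norm ℝ b (a - b)
  have h6 : b + (a - b) = a := by abel
  have h7 : b - (a - b) = c := by
    rw [h4]
    abel
  rw [h6, h7, h5] at hpar2
  have h8 : ‖a‖^2 + ‖c‖^2 - 2 * ‖b‖^2 = 2 := by nlinarith
  have h9 : ((⌊‖a‖^2⌋ + ⌊‖c‖^2⌋ - 2 * ⌊‖b‖^2⌋ : ℤ) : ZMod 4) = 0 := by
    push_cast
    rw [← h2, h1]
    ring
  rw [ZMod.intCast_zmod_eq_zero_iff_dvd] at h9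
  obtain ⟨t, ht⟩ := h9
  have a1 := Int.floor_le (‖a‖^2)
  have a2 := Int.lt_floor_add_one (‖a‖^2)
  have b1 := Int.floor_le (‖b‖^2)
  have b2 := Int.lt_floor_add_one (‖b‖^2)
  have c1 := Int.floor_le (‖c‖^2)
  have c2 := Int.lt_floor_add_one (‖c‖^2)
  have ht' : (⌊‖a‖^2⌋ : ℝ) + ⌊‖c‖^2⌋ - 2 * ⌊‖b‖^2⌋ = 4 * t := by exact_mod_cast ht
  have t1 : (4 : ℝ) * t < 4 := by linarith
  have t2 : (0 : ℝ) < 4 * t := by linarith
  have t3 : (4 : ℤ) * t < 4 := by exact_mod_cast t1
  have t4 : (0 : ℤ) < 4 * t := by exact_mod_cast t2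
  omega

theorem P_one : P 1 := by
  refine ⟨1/4, by norm_num, ?_⟩
  intro n _ x
  set c : Fin n → ZMod 4 := fun i => (⌊‖x i‖^2⌋ : ZMod 4) with hc
  have hpig : ∃ r : ZMod 4, (1/4 : ℝ) * n ≤ ((univ.filter (fun i => c i = r)).card : ℝ) := by
    by_contra hcon
    push Not at hcon
    have h1 : (Finset.univ : Finset (Fin n)).card
        = ∑ r : ZMod 4, (univ.filter (fun i => c i = r)).card :=
      Finset.card_eq_sum_card_fiberwise (fun _ _ => Finset.mem_coe.2 (Finset.mem_univ _))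
    have h2 : (n : ℝ) = ∑ r : ZMod 4, ((univ.filter (fun i => c i = r)).card : ℝ) := by
      rw [Finset.card_univ, Fintype.card_fin] at h1
      exact_mod_cast h1
    have h3 : ∑ r : ZMod 4, ((univ.filter (fun i => c i = r)).card : ℝ)
        < ∑ r : ZMod 4, (1/4 : ℝ) * n :=
      Finset.sum_lt_sum_of_nonempty Finset.univ_nonempty (fun r _ => hcon r)
    rw [← h2, Finset.sum_const, Finset.card_univ, ZMod.card, nsmul_eq_mul] at h3
    norm_num at h3
    linarith
  obtain ⟨r, hr⟩ := hpig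
  refine ⟨_, hr, ?_⟩
  intro i hi j hj k hk _ _ _ hbad
  simp only [Finset.mem_filter, Finset.mem_univ, true_and] at hi hj hk
  unfold Bad d at hbad
  rcases hbad with ⟨h1, h2, h3⟩ | ⟨h1, h2, h3⟩ | ⟨h1, h2, h3⟩
  · exact midpoint_color _ _ _ h1 h2 h3 (hi.trans hj.symm) (hj.trans hk.symm)
  · rw [norm_sub_rev] at h2
    rw [norm_sub_rev] at h3
    exact midpoint_color _ _ _ h1 h2 h3 (hj.trans hk.symm) (hk.trans hi.symm)
  · rw [norm_sub_rev] at h1
    rw [norm_sub_rev] at h3
    exact midpoint_color _ _ _ h1 h2 h3 (hk.trans hi.symm) (hi.trans hj.symm)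

theorem P_mono {δ δ' : ℝ} (h : δ ≤ δ') (hP : P δ) : P δ' := by
  obtain ⟨lam, hl, hP⟩ := hP
  refine ⟨lam, hl, fun n hn x => ?_⟩
  obtain ⟨I, hI, hb⟩ := hP n hn x
  refine ⟨I, hI, fun i hi j hj k hk h1 h2 h3 hbad => hb i hi j hj k hk h1 h2 h3 ?_⟩
  rcases hbad with ⟨h1, h2, h3⟩ | ⟨h1, h2, h3⟩ | ⟨h1, h2, h3⟩
  · exact Or.inl ⟨h1, h2, by linarith⟩
  · exact Or.inr (Or.inl ⟨h1, h2, by linarith⟩)
  · exact Or.inr (Or.inr ⟨h1, h2, by linarith⟩)

/-- **Theorem.** For `δ > 0`, the property `P(δ)` fails exactly when `δ < 1`; the supremum of the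
`δ > 0` for which it fails is `1`, and it is not attained. -/
theorem result : (∀ δ : ℝ, 0 < δ → (¬ P δ ↔ δ < 1)) ∧
    sSup {δ : ℝ | 0 < δ ∧ ¬ P δ} = 1 ∧ P 1 := by
  have hmain : ∀ δ : ℝ, 0 < δ → (¬ P δ ↔ δ < 1) := by
    intro δ hδ
    constructor
    · intro h
      by_contra hcon
      exact h (P_mono (not_lt.1 hcon) P_one)
    · exact not_P δ hδ
  refine ⟨hmain, ?_, P_one⟩
  have hset : {δ : ℝ | 0 < δ ∧ ¬ P δ} = Set.Ioo 0 1 := by
    ext δ
    constructor
    · rintro ⟨h1, h2⟩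
      exact ⟨h1, (hmain δ h1).1 h2⟩
    · rintro ⟨h1, h2⟩
      exact ⟨h1, (hmain δ h1).2 h2⟩
  rw [hset]
  exact csSup_Ioo (by norm_num)

end Pool.Agent.Results.MP_8cfbc5_co.Threshold
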